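import Mathlib

/-!
# Project BC (helper69), MP_1fa9a4_gt: elements of the holonomy with bounded conjugacy classes. Statements of the parts.
-/

set_option autoImplicit false

namespace Pool.Agent.NH69.BC

/-- BC-NIL. If all the traces of the powers vanish, the endomorphism is nilpotent.
Proof. Let `n = finrank`, `q` the minimal polynomial of `f`, `q = X ^ k * r` with `r.eval 0 ≠ 0`
(`Polynomial.exists_eq_pow_rootMultiplicity_mul_and_not_dvd` at `0`, or `rootMultiplicity 0`). `X ^ (k+1)` and `r` are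
coprime: `u * X ^ (k+1) + v * r = 1`. Let `e = aeval f (u * X ^ (k+1))`. Then `e * (1 - e) =
aeval f (u * X^(k+1) * v * r) = 0`, since `q ∣ X ^ (k+1) * r`, so `e` is idempotent. `trace e = 0`, since
`e` is a linear combination of the `f ^ m`, `m ≥ 1`. An idempotent of trace zero over `ℝ` is zero
(`LinearMap.IsIdempotentElem... trace = finrank of the range`, `LinearMap.IsProj.trace`). So `e = 0`, `aeval f (v * r) = 1`, and
`f ^ (k+1) = f ^ (k+1) * aeval f (v * r) = 0`. -/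
def S_NIL : Prop := ∀ (E : Type) [AddCommGroup E] [Module ℝ E] [FiniteDimensional ℝ E] (f : Module.End ℝ E),
  (∀ m : ℕ, 1 ≤ m → LinearMap.trace ℝ E (f ^ m) = 0) → IsNilpotent f

/-- BC-UB. A pointwise bounded family of affine maps is uniformly bounded. Proof. The linear parts
`L_i c = h_i c - h_i 0`, as continuous linear maps (`LinearMap.toContinuousLinearMap`), are pointwise bounded,
so `banach_steinhaus` gives `‖L_i‖ ≤ B` (`FiniteDimensional.complete ℝ C`); see `Pool/Agent/Y150/Ch/Bd.lean`,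
`exists_fixed`, first 20 lines, for the same argument. Take `A = max |R₀| |B|` with `‖h_i 0‖ ≤ R₀`. -/
def S_UB : Prop := ∀ (ι C : Type) [NormedAddCommGroup C] [NormedSpace ℝ C] [FiniteDimensional ℝ C]
  (h : ι → (C →ᵃ[ℝ] C)), (∀ c, ∃ R : ℝ, ∀ i, ‖h i c‖ ≤ R) → ∃ A : ℝ, 0 ≤ A ∧ ∀ i c, ‖h i c‖ ≤ A * (1 + ‖c‖)

/-- A group with bounded orbits has a fixed point (from the starting files; helper69). -/
def S_FIX : Prop := ∀ (Γ B : Type) [Group Γ] [NormedAddCommGroup B] [NormedSpace ℝ B] [FiniteDimensional ℝ B]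
  (h : Γ →* (B ≃ᵃ[ℝ] B)) (H : AffineSubspace ℝ B) (p : B), p ∈ H → (∀ γ, ∀ q ∈ H, h γ q ∈ H) →
  (∀ q ∈ H, ∃ R : ℝ, ∀ γ, ‖h γ q‖ ≤ R) → ∃ q ∈ H, ∀ γ, h γ q = q

/-- BC-REP. The action on the affine vector fields `X(v) = L v + b`: `(γ X)(v) = lin γ (X (γ⁻¹ v))`, that is
`(L, b) ↦ (lin γ ∘ L ∘ lin γ⁻¹, lin γ (L (γ⁻¹ 0) + b))`. Proof. Define the linear map `r γ` by these formulas
(with `LinearMap.toContinuousLinearMap` of the linear parts, continuous linear maps are closed under `comp`);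
`r (γ δ) = r γ ∘ r δ` and `r 1 = id`, from `h (γ δ) v = h γ (h δ v)` and
`h γ⁻¹ v = h γ⁻¹ 0 + (h γ⁻¹).linear v`; so `r γ` is a linear equivalence with the inverse `r γ⁻¹`, and
`ρ γ = (r γ).toAffineEquiv`. (Do not use `(h γ).linear.symm`: keep `(h γ⁻¹).linear`, with the two rules
`(h (γ δ)).linear v = (h γ).linear ((h δ).linear v)`, `(h 1).linear v = v`.) -/
def S_REP : Prop := ∀ (Γ C : Type) [Group Γ] [NormedAddCommGroup C] [NormedSpace ℝ C] [FiniteDimensional ℝ C]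
  (h : Γ →* (C ≃ᵃ[ℝ] C)), ∃ ρ : Γ →* (((C →L[ℝ] C) × C) ≃ᵃ[ℝ] ((C →L[ℝ] C) × C)),
    ∀ (γ : Γ) (L : C →L[ℝ] C) (b : C), (∀ v, (ρ γ (L, b)).1 v = (h γ).linear (L ((h γ⁻¹).linear v))) ∧
      (ρ γ (L, b)).2 = (h γ).linear (L (h γ⁻¹ 0) + b)

/-- BC-TR (uses S_FIX, S_UB, S_REP as hypotheses). If only the identity commutes with the group, and the conjugacy
class of `a` is bounded, then the linear part of `a` has trace `dim C`.
Proof. Let `B = (C →L[ℝ] C) × C`, `ρ` from `S_REP`, `x = (L_a - 1, h a 0)` with `L_a` the linear part of `h a`. Then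
`ρ γ x = (L_(γ a γ⁻¹) - 1, h (γ a γ⁻¹) 0)`: the affine vector field `v ↦ h (γ a γ⁻¹) v - v`. Let `S` be the set of all
`y : B` with bounded orbit (`∃ R, ∀ γ, ‖ρ γ y‖ ≤ R`) and `trace y.1 = trace (L_a - 1)`. `x ∈ S`: by `S_UB` for the
family `γ ↦ h (γ a γ⁻¹)`, `‖L_(γ a γ⁻¹) v‖ = ‖h _ v - h _ 0‖ ≤ A (1 + ‖v‖) + A`, so for the operator norm
`≤ 3 A` (scale `v`; or use `S_UB`/`banach_steinhaus` for the linear parts directly). `S` is closed under the affine
combinations `s • y + t • z`, `s + t = 1`, so it is an `AffineSubspace` (`to_affine` in `Pool/Agent/NH69/CH/Fin.lean`, 15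
lines, copy it), and it is invariant under `ρ` (orbits: `ρ γ (ρ δ y) = ρ (γ δ) y`; trace: `LinearMap.trace_conj'` or
`LinearMap.trace_mul_comm`). `S_FIX` gives `(L, b) ∈ S` with `ρ γ (L, b) = (L, b)` for all `γ`. The affine map
`f v = v + L v + b` commutes with all `h γ`: `f (h γ v) - h γ v = L (h γ v) + b`, and
`h γ (f v) - h γ v = lin γ (L v + b)`, and with `v = h γ⁻¹ w`, `w = h γ v`, the fixed point equation says
`lin γ (L (h γ⁻¹ w) + b) = L w + b` (`h γ⁻¹ w = (h γ⁻¹).linear w + h γ⁻¹ 0`). So `f = id`, `L v + b = 0` for all `v`, `b = 0`,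
`L = 0`, `trace (L_a - 1) = 0`, and `trace 1 = finrank`. -/
def S_TR : Prop := ∀ (Γ C : Type) [Group Γ] [NormedAddCommGroup C] [NormedSpace ℝ C] [FiniteDimensional ℝ C]
  (h : Γ →* (C ≃ᵃ[ℝ] C)),
  (∀ f : C →ᵃ[ℝ] C, (∀ γ c, f (h γ c) = h γ (f c)) → ∀ c, f c = c) →
  ∀ a : Γ, (∀ c, ∃ R : ℝ, ∀ γ, ‖h (γ * a * γ⁻¹) c‖ ≤ R) →
  LinearMap.trace ℝ C ((h a).linear : C →ₗ[ℝ] C) = Module.finrank ℝ C

/-- BC-RES. The action of `K` on `H / W`. Proof. Let `V = H.direction`. Choose `C` with `C ⊔ W = V`, `C ⊓ W = ⊥`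
(`Submodule.exists_isCompl` in `V`, or: `exists_isCompl W` in `E` gives `D`, take `C = D ⊓ V`, modular law), and a linear
`P : E → C` with `P c = c`, `P w = 0` (e.g. `IsCompl` of `C` with `W ⊔ D'`, `D'` a complement of `V`,
`Submodule.linearProjOfIsCompl`). Then `v - P v ∈ W` for `v ∈ V`. Define `h k c = P (hol k (p + c) - p)` with the
linear part `l k c = P ((hol k).linear c)`. If `v, v' ∈ V` and `v - v' ∈ W` then
`hol k (p + v) - hol k (p + v') = (hol k).linear (v - v') ∈ W` is killed by `P`; so `h (k k') c = h k (h k' c)`, `h 1 = id`, the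
same for `l`, so these are equivalences with the inverses for `k⁻¹`. -/
def S_RES : Prop := ∀ (Γ E : Type) [Group Γ] [NormedAddCommGroup E] [NormedSpace ℝ E] [FiniteDimensional ℝ E]
  (hol : Γ →* (E ≃ᵃ[ℝ] E)) (K : Subgroup Γ) (H : AffineSubspace ℝ E) (W : Submodule ℝ E) (p : E), p ∈ H →
  (∀ γ ∈ K, ∀ q ∈ H, hol γ q ∈ H) → W ≤ H.direction → (∀ γ ∈ K, ∀ w ∈ W, (hol γ).linear w ∈ W) →
  ∃ (C : Submodule ℝ E) (P : E →ₗ[ℝ] C) (h : K →* (C ≃ᵃ[ℝ] C)), C ≤ H.direction ∧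
    (∀ v ∈ H.direction, v - (P v : E) ∈ W) ∧ (∀ c : C, P c = c) ∧ (∀ w ∈ W, P w = 0) ∧
    (∀ (k : K) (c : C), h k c = P (hol k (p + c) - p)) ∧
    ∀ (k : K) (c : C), (h k).linear c = P ((hol k).linear c)

end Pool.Agent.NH69.BC
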