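import Pool.Agent.NH69.CH.Fin
import Pool.Agent.NH69.BC.Stm

/-!
# Elements of the holonomy with bounded conjugacy classes: assembly
-/

set_option autoImplicit false

namespace Pool.Agent.NH69.BC

open Submodule
open Pool.Agent.W689.Mk (hol_sub hol_inv_apply hol_apply_inv)
open Pool.Agent.Y150.Ch (T T_sub)
open Pool.Agent.NH69.CH (Inv I Fam mem_I mul_mem pres irr only_id afam_normal dir_sub add_dir lin_sub)

/-- from the starting files -/
theorem t_FIX : S_FIX := by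
  intro Γ B _ _ _ _ h H p hp hinv hb
  obtain ⟨q, hq, h1⟩ := Pool.Agent.Y150.Ch.exists_fixed (hol := h) (N := ⊤) hp (fun a _ => hinv a)
    (fun q hq => by
      obtain ⟨R, hR⟩ := hb q hq
      exact ⟨R, fun a _ => hR a⟩)
  exact ⟨q, hq, fun γ => h1 γ trivial⟩

section group

variable {Γ C : Type} [Group Γ] [NormedAddCommGroup C] [NormedSpace ℝ C] {h : Γ →* (C ≃ᵃ[ℝ] C)}

/-- the conjugacy class of `a` is bounded -/
def Bc (h : Γ →* (C ≃ᵃ[ℝ] C)) (a : Γ) : Prop := ∀ c, ∃ R : ℝ, ∀ γ, ‖h (γ * a * γ⁻¹) c‖ ≤ R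

theorem Bc.mul [FiniteDimensional ℝ C] (hub : S_UB) {a b : Γ} (ha : Bc h a) (hb : Bc h b) : Bc h (a * b) := by
  obtain ⟨A, hA, h1⟩ := hub Γ C (fun γ => ((h (γ * a * γ⁻¹) : C ≃ᵃ[ℝ] C) : C →ᵃ[ℝ] C)) ha
  intro c
  obtain ⟨R, hR⟩ := hb c
  refine ⟨A * (1 + R), fun γ => ?_⟩
  have h2 : γ * (a * b) * γ⁻¹ = (γ * a * γ⁻¹) * (γ * b * γ⁻¹) := by group
  rw [h2, map_mul]
  refine (h1 γ (h (γ * b * γ⁻¹) c)).trans ?_
  have := hR γ
  gcongr

theorem Bc.conj {a : Γ} (ha : Bc h a) (δ : Γ) : Bc h (δ * a * δ⁻¹) := by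
  intro c
  obtain ⟨R, hR⟩ := ha c
  refine ⟨R, fun γ => ?_⟩
  have h2 : γ * (δ * a * δ⁻¹) * γ⁻¹ = (γ * δ) * a * (γ * δ)⁻¹ := by group
  rw [h2]
  exact hR _

theorem Bc.one : Bc h (1 : Γ) := fun c => ⟨‖c‖, fun γ => by
  rw [mul_one, mul_inv_cancel, map_one]
  exact le_rfl⟩

theorem Bc.pow [FiniteDimensional ℝ C] (hub : S_UB) {a : Γ} (ha : Bc h a) (m : ℕ) : Bc h (a ^ m) := by
  induction m with
  | zero => rw [pow_zero]; exact Bc.one
  | succ m ih => rw [pow_succ]; exact ih.mul hub ha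

/-- the span of the `a - 1`, where `a` has a bounded conjugacy class -/
def J (h : Γ →* (C ≃ᵃ[ℝ] C)) : Submodule ℝ (Module.End ℝ C) := span ℝ {x | ∃ a, Bc h a ∧ x = T h a - 1}

theorem J_mul [FiniteDimensional ℝ C] (hub : S_UB) {s t : Module.End ℝ C} (hs : s ∈ J h) (ht : t ∈ J h) :
    s * t ∈ J h := by
  induction hs using span_induction with
  | mem x hx =>
    obtain ⟨a, ha, rfl⟩ := hx
    induction ht using span_induction with
    | mem y hy =>
      obtain ⟨b, hb, rfl⟩ := hy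
      have h1 : (T h a - 1) * (T h b - 1) = (T h (a * b) - 1) - (T h a - 1) - (T h b - 1) := by
        rw [map_mul]; noncomm_ring
      rw [h1]
      exact sub_mem (sub_mem (subset_span ⟨_, ha.mul hub hb, rfl⟩) (subset_span ⟨_, ha, rfl⟩))
        (subset_span ⟨_, hb, rfl⟩)
    | zero => rw [mul_zero]; exact zero_mem _
    | add x y _ _ hx hy => rw [mul_add]; exact add_mem hx hy
    | smul c x _ hx => rw [mul_smul_comm]; exact smul_mem _ c hx
  | zero => rw [zero_mul]; exact zero_mem _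
  | add x y _ _ hx hy => rw [add_mul]; exact add_mem hx hy
  | smul c x _ hx => rw [smul_mul_assoc]; exact smul_mem _ c hx

/-- the elements of `J` are nilpotent -/
theorem J_nil [FiniteDimensional ℝ C] (hnil : S_NIL) (hub : S_UB) (htr : S_TR)
    (hcomm : ∀ f : C →ᵃ[ℝ] C, (∀ γ c, f (h γ c) = h γ (f c)) → ∀ c, f c = c) {t : Module.End ℝ C}
    (ht : t ∈ J h) : IsNilpotent t := by
  have h0 : ∀ s ∈ J h, LinearMap.trace ℝ C s = 0 := by
    intro s hs
    induction hs using span_induction with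
    | mem x hx =>
      obtain ⟨a, ha, rfl⟩ := hx
      have h1 := htr Γ C h hcomm a ha
      have h2 : LinearMap.trace ℝ C (T h a) = Module.finrank ℝ C := h1
      rw [map_sub, h2, LinearMap.trace_one, sub_self]
    | zero => rw [map_zero]
    | add x y _ _ hx hy => rw [map_add, hx, hy, add_zero]
    | smul c x _ hx => rw [map_smul, hx, smul_zero]
  have h1 : ∀ m : ℕ, t ^ (m + 1) ∈ J h := by
    intro m
    induction m with
    | zero => rwa [zero_add, pow_one]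
    | succ m ih => rw [pow_succ]; exact J_mul hub ih ht
  refine hnil C t fun m hm => ?_
  obtain ⟨k, rfl⟩ : ∃ k, m = k + 1 := ⟨m - 1, by omega⟩
  exact h0 _ (h1 k)

/-- the class of the inverse is bounded -/
theorem Bc.inv [FiniteDimensional ℝ C] (hnil : S_NIL) (hub : S_UB) (htr : S_TR)
    (hcomm : ∀ f : C →ᵃ[ℝ] C, (∀ γ c, f (h γ c) = h γ (f c)) → ∀ c, f c = c) {a : Γ} (ha : Bc h a) :
    Bc h a⁻¹ := by
  obtain ⟨n, hn⟩ := J_nil hnil hub htr hcomm (subset_span ⟨a, ha, rfl⟩ : T h a - 1 ∈ J h)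
  have hn' : ∀ γ, (1 - T h (γ * a * γ⁻¹)) ^ n = 0 := by
    intro γ
    have e1 : T h γ * T h γ⁻¹ = 1 := by rw [← map_mul, mul_inv_cancel, map_one]
    have e1' : T h γ⁻¹ * T h γ = 1 := by rw [← map_mul, inv_mul_cancel, map_one]
    have e2 : ∀ m : ℕ, (1 - T h (γ * a * γ⁻¹)) ^ m = T h γ * (1 - T h a) ^ m * T h γ⁻¹ := by
      intro m
      induction m with
      | zero => rw [pow_zero, pow_zero, mul_one, e1]
      | succ m ih =>
        have e3 : 1 - T h (γ * a * γ⁻¹) = T h γ * (1 - T h a) * T h γ⁻¹ := by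
          rw [map_mul, map_mul, mul_sub, mul_one, sub_mul, e1]
        rw [pow_succ, ih, e3, pow_succ]
        calc T h γ * (1 - T h a) ^ m * T h γ⁻¹ * (T h γ * (1 - T h a) * T h γ⁻¹)
            = T h γ * (1 - T h a) ^ m * (T h γ⁻¹ * T h γ) * (1 - T h a) * T h γ⁻¹ := by noncomm_ring
          _ = T h γ * ((1 - T h a) ^ m * (1 - T h a)) * T h γ⁻¹ := by rw [e1']; noncomm_ring
    have e4 : (1 - T h a) ^ n = 0 := by
      have e5 : 1 - T h a = -(T h a - 1) := by abel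
      rw [e5, neg_pow, hn, mul_zero]
    rw [e2, e4, mul_zero, zero_mul]
  intro c
  obtain ⟨X, hX⟩ := ha 0
  -- the linear parts are pointwise bounded
  obtain ⟨A, hA, h1⟩ := hub Γ C (fun γ => (T h (γ * a * γ⁻¹)).toAffineMap) (by
    intro v
    obtain ⟨R, hR⟩ := ha v
    refine ⟨R + X, fun γ => ?_⟩
    have e1 : (T h (γ * a * γ⁻¹)).toAffineMap v = h (γ * a * γ⁻¹) v - h (γ * a * γ⁻¹) 0 := by
      rw [← T_sub, sub_zero]; rfl
    rw [e1]
    exact (norm_sub_le _ _).trans (add_le_add (hR γ) (hX γ)))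
  have h2 : ∀ j : ℕ, ∃ B : ℝ, ∀ γ, ‖((1 - T h (γ * a * γ⁻¹)) ^ j) (c - h (γ * a * γ⁻¹) 0)‖ ≤ B := by
    intro j
    induction j with
    | zero =>
      refine ⟨‖c‖ + X, fun γ => ?_⟩
      rw [pow_zero, Module.End.one_apply]
      exact (norm_sub_le _ _).trans (add_le_add le_rfl (hX γ))
    | succ j ih =>
      obtain ⟨B, hB⟩ := ih
      refine ⟨B + A * (1 + B), fun γ => ?_⟩
      rw [pow_succ', Module.End.mul_apply, LinearMap.sub_apply, Module.End.one_apply]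
      refine (norm_sub_le _ _).trans (add_le_add (hB γ) ?_)
      refine (h1 γ _).trans ?_
      have := hB γ
      gcongr
  choose B hB using h2
  refine ⟨∑ j ∈ Finset.range n, B j, fun γ => ?_⟩
  set y := h (γ * a⁻¹ * γ⁻¹) c with hy
  have e1 : h (γ * a * γ⁻¹) y = c := by
    have e2 : (γ * a * γ⁻¹) * (γ * a⁻¹ * γ⁻¹) = 1 := by group
    have e3 : h ((γ * a * γ⁻¹) * (γ * a⁻¹ * γ⁻¹)) c = c := by rw [e2, map_one]; rfl
    rw [map_mul] at e3
    exact e3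
  have e2 : T h (γ * a * γ⁻¹) y = c - h (γ * a * γ⁻¹) 0 := by
    have e3 := T_sub (hol := h) (γ * a * γ⁻¹) y 0
    rw [sub_zero, e1] at e3
    exact e3
  have e3 := congrArg (fun f : Module.End ℝ C => f y) (geom_sum_mul_neg (1 - T h (γ * a * γ⁻¹)) n)
  simp only [hn', sub_zero, sub_sub_cancel] at e3
  have e4 : y = ∑ j ∈ Finset.range n, ((1 - T h (γ * a * γ⁻¹)) ^ j) (c - h (γ * a * γ⁻¹) 0) := by
    rw [← e2, ← LinearMap.sum_apply]
    exact e3.symm
  rw [e4]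
  exact (norm_sum_le _ _).trans (Finset.sum_le_sum fun j _ => hB j γ)

/-- the group of the elements with bounded conjugacy classes -/
def NN [FiniteDimensional ℝ C] (hnil : S_NIL) (hub : S_UB) (htr : S_TR) (h : Γ →* (C ≃ᵃ[ℝ] C))
    (hcomm : ∀ f : C →ᵃ[ℝ] C, (∀ γ c, f (h γ c) = h γ (f c)) → ∀ c, f c = c) : Subgroup Γ where
  carrier := {a | Bc h a}
  mul_mem' := fun ha hb => ha.mul hub hb
  one_mem' := Bc.one
  inv_mem' := fun ha => ha.inv hnil hub htr hcomm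

end group

variable {Γ E : Type} [Group Γ] [NormedAddCommGroup E] [NormedSpace ℝ E] [FiniteDimensional ℝ E]
  {hol : Γ →* (E ≃ᵃ[ℝ] E)} {K : Subgroup Γ} {H : AffineSubspace ℝ E}

/-- there are no trivial factors if there are none of dimension one -/
theorem no_triv (hline : ∀ W W' : Submodule ℝ E, W ≤ W' → W' ≤ H.direction → Inv (T hol) K W → Inv (T hol) K W' →
      Module.finrank ℝ W' ≠ Module.finrank ℝ W + 1) :
    ∀ W₁ W₂ : Submodule ℝ E, W₁ < W₂ → W₂ ≤ H.direction → Inv (T hol) K W₁ →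
      ∃ a ∈ K, ∃ v ∈ W₂, T hol a v - v ∉ W₁ := by
  intro W₁ W₂ k2 k3 k4
  by_contra hcon
  push Not at hcon
  obtain ⟨w, hw, hw'⟩ := SetLike.exists_of_lt k2
  refine hline W₁ (W₁ ⊔ span ℝ {w}) le_sup_left ?_ k4 ?_ (finrank_sup_span_singleton hw')
  · exact sup_le (k2.le.trans k3) ((span_singleton_le_iff_mem _ _).2 (k3 hw))
  · intro a ha x hx
    have hx2 : x ∈ W₂ := (sup_le k2.le ((span_singleton_le_iff_mem _ _).2 hw)) hx
    have e1 : T hol a x = (T hol a x - x) + x := by abel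
    rw [e1]
    exact add_mem (mem_sup_left (hcon a ha x hx2)) hx

/-- the class of `g` is bounded modulo `W` -/
def BW (hol : Γ →* (E ≃ᵃ[ℝ] E)) (K : Subgroup Γ) (H : AffineSubspace ℝ E) (W : Submodule ℝ E) (g : Γ) : Prop :=
  ∀ q ∈ H, ∃ R : ℝ, ∀ γ ∈ K, ∃ w ∈ W, ‖hol (γ * g * γ⁻¹) q + w‖ ≤ R

/-- the action on `H / W` -/
theorem prep (hres : S_RES) {p : E} (hp : p ∈ H)
    (hK : ∀ γ ∈ K, ∀ q ∈ H, hol γ q ∈ H)
    (haff : ∀ S : Set E, S.Nonempty → S ⊆ H → (∀ x ∈ S, ∀ y ∈ S, ∀ s t : ℝ, s + t = 1 → s • x + t • y ∈ S) →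
      (∀ γ ∈ K, ∀ q ∈ S, hol γ q ∈ S) → S = H)
    {W : Submodule ℝ E} (hWV : W ≤ H.direction) (hW : Inv (T hol) K W)
    (hnt : ∀ W₁ W₂ : Submodule ℝ E, W ≤ W₁ → W₁ < W₂ → W₂ ≤ H.direction → Inv (T hol) K W₁ →
      Inv (T hol) K W₂ → ∃ a ∈ K, ∃ v ∈ W₂, T hol a v - v ∉ W₁) :
    ∃ (C : Submodule ℝ E) (P : E →ₗ[ℝ] C) (h : K →* (C ≃ᵃ[ℝ] C)), C ≤ H.direction ∧
      (∀ v ∈ H.direction, v - (P v : E) ∈ W) ∧ (∀ c : C, P c = c) ∧ (∀ w ∈ W, P w = 0) ∧
      (∀ (k : K) (c : C), (h k).linear c = P ((hol k).linear c)) ∧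
      (∀ f : C →ᵃ[ℝ] C, (∀ γ c, f (h γ c) = h γ (f c)) → ∀ c, f c = c) ∧
      ∀ (g : Γ) (hg : g ∈ K), BW hol K H W g ↔ Bc h ⟨g, hg⟩ := by
  obtain ⟨C, P, h, hCV, hPV, hPC, hPW, hh, hl⟩ := hres Γ E hol K H W p hp hK hWV hW
  have hPV' : ∀ v ∈ H.direction, ∀ v' ∈ H.direction, v - v' ∈ W → P v = P v' := by
    intro v _ v' _ hvv
    have e1 := hPW _ hvv
    rw [map_sub, sub_eq_zero] at e1
    exact e1
  have honly := only_id (F := {K}) (afam_normal le_rfl fun γ hγ a ha => ⟨γ * a * γ⁻¹, K.mul_mem (K.mul_mem hγ ha)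
    (K.inv_mem hγ), fun _ _ => rfl⟩) hp hK haff hWV hW
    (fun W₁ W₂ k1 k2 k3 k4 k5 L hL => by
      rw [Set.mem_singleton_iff] at hL
      subst hL
      exact hnt W₁ W₂ k1 k2 k3 k4 k5) K rfl
  have hcomm : ∀ f : C →ᵃ[ℝ] C, (∀ γ c, f (h γ c) = h γ (f c)) → ∀ c, f c = c := by
    intro f hf c
    let F : E →ᵃ[ℝ] E := (AffineMap.const ℝ E p) + (C.subtype.toAffineMap.comp (f.comp
      (P.toAffineMap.comp (AffineMap.id ℝ E - AffineMap.const ℝ E p))))
    have hF : ∀ q, F q = p + (f (P (q - p)) : E) := fun q => rfl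
    have hFH : ∀ q ∈ H, F q ∈ H := fun q _ => by
      rw [hF]
      exact add_dir hp (hCV (f (P (q - p))).2)
    have e0 := honly F ⟨hFH, fun w hw => ?_, fun a ha q hq => ?_⟩ (p + c) (add_dir hp (hCV c.2))
    · rw [hF, add_sub_cancel_left, hPC] at e0
      have e1 : p + (f c : E) - (p + c) = (f c - c : C) := by
        rw [AddSubgroupClass.coe_sub]; abel
      rw [e1] at e0
      have e2 := hPW _ e0
      rw [hPC] at e2
      exact sub_eq_zero.1 e2
    · have e1 : F.linear w = F (p + w) - F p := by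
        rw [← lin_sub, add_sub_cancel_left]
      rw [e1, hF, hF, add_sub_cancel_left, hPW w hw, sub_self, map_zero P, sub_self]
      exact W.zero_mem
    · have hv : q - p ∈ H.direction := dir_sub hq hp
      set v := q - p with hvd
      have hq' : q = p + v := by rw [hvd]; abel
      -- first
      have e1 : P (hol a q - p) = h ⟨a, ha⟩ (P v) := by
        rw [hh]
        refine hPV' _ (dir_sub (hK a ha q hq) hp) _ (dir_sub (hK a ha _ (add_dir hp (hCV (P v).2))) hp) ?_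
        have e2 : hol a q - p - (hol a (p + (P v : E)) - p) = T hol a (v - P v) := by
          rw [hq', sub_sub_sub_cancel_right, ← T_sub]
          congr 1
          abel
        show hol a q - p - (hol a (p + (P v : E)) - p) ∈ W
        rw [e2]
        exact hW a ha _ (hPV v hv)
      rw [hF, hF, e1, hf, hh]
      have hz : hol a (p + (f (P v) : E)) - p ∈ H.direction :=
        dir_sub (hK a ha _ (add_dir hp (hCV (f (P v)).2))) hp
      have e3 := W.neg_mem (hPV _ hz)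
      have e4 : p + ((P (hol a (p + (f (P v) : E)) - p) : C) : E) - hol a (p + (f (P v) : E)) =
          -(hol a (p + (f (P v) : E)) - p - (P (hol a (p + (f (P v) : E)) - p) : C)) := by abel
      show p + ((P (hol a (p + (f (P v) : E)) - p) : C) : E) - hol a (p + (f (P v) : E)) ∈ W
      rw [e4]
      exact e3
  refine ⟨C, P, h, hCV, hPV, hPC, hPW, hl, hcomm, fun g hg => ⟨fun hb => ?_, fun hb => ?_⟩⟩
  · let PL : E →L[ℝ] C := LinearMap.toContinuousLinearMap P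
    have hPn : ∀ x, ‖P x‖ ≤ ‖PL‖ * ‖x‖ := fun x => PL.le_opNorm x
    intro c
    obtain ⟨R, hR⟩ := hb _ (add_dir hp (hCV c.2))
    refine ⟨‖PL‖ * (R + ‖p‖), fun k => ?_⟩
    obtain ⟨w, hw, hR⟩ := hR k.1 k.2
    rw [hh]
    have e1 : P (hol (k * ⟨g, hg⟩ * k⁻¹ : K) (p + c) - p) = P ((hol (k.1 * g * k.1⁻¹) (p + c) + w) - p) := by
      have e2 : (hol (k.1 * g * k.1⁻¹) (p + c) + w) - p = (hol (k.1 * g * k.1⁻¹) (p + c) - p) + w := by abel
      rw [e2, P.map_add _ w, hPW w hw, add_zero]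
      rfl
    rw [e1]
    refine (hPn _).trans ?_
    gcongr
    exact (norm_sub_le _ _).trans (by gcongr)
  · intro q hq
    have hv : q - p ∈ H.direction := dir_sub hq hp
    set v := q - p with hvd
    have hq' : q = p + v := by rw [hvd]; abel
    obtain ⟨R, hR⟩ := hb (P v)
    refine ⟨‖p‖ + R, fun γ hγ => ?_⟩
    have hc : γ * g * γ⁻¹ ∈ K := K.mul_mem (K.mul_mem hγ hg) (K.inv_mem hγ)
    have hx : hol (γ * g * γ⁻¹) q - p ∈ H.direction := dir_sub (hK _ hc q hq) hp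
    refine ⟨_, W.neg_mem (hPV _ hx), ?_⟩
    have e1 : P (hol (γ * g * γ⁻¹) q - p) = h ((⟨γ, hγ⟩ : K) * ⟨g, hg⟩ * (⟨γ, hγ⟩ : K)⁻¹) (P v) := by
      rw [hh]
      refine hPV' _ hx _ (dir_sub (hK _ hc _ (add_dir hp (hCV (P v).2))) hp) ?_
      have e2 : hol (γ * g * γ⁻¹) q - p - (hol (γ * g * γ⁻¹) (p + (P v : E)) - p) =
          T hol (γ * g * γ⁻¹) (v - P v) := by
        rw [hq', sub_sub_sub_cancel_right, ← T_sub]
        congr 1
        abel
      show hol (γ * g * γ⁻¹) q - p - (hol (γ * g * γ⁻¹) (p + (P v : E)) - p) ∈ W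
      rw [e2]
      exact hW _ hc _ (hPV v hv)
    have e3 : hol (γ * g * γ⁻¹) q + -(hol (γ * g * γ⁻¹) q - p - (P (hol (γ * g * γ⁻¹) q - p) : C)) =
        p + ((P (hol (γ * g * γ⁻¹) q - p) : C) : E) := by abel
    rw [e3, e1]
    exact (norm_add_le _ _).trans (add_le_add le_rfl (hR ⟨γ, hγ⟩))

/-- the elements with bounded classes form a group -/
theorem group_of (hnil : S_NIL) (hub : S_UB) (htr : S_TR) (hres : S_RES) {p : E} (hp : p ∈ H)
    (hK : ∀ γ ∈ K, ∀ q ∈ H, hol γ q ∈ H)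
    (haff : ∀ S : Set E, S.Nonempty → S ⊆ H → (∀ x ∈ S, ∀ y ∈ S, ∀ s t : ℝ, s + t = 1 → s • x + t • y ∈ S) →
      (∀ γ ∈ K, ∀ q ∈ S, hol γ q ∈ S) → S = H)
    {W : Submodule ℝ E} (hWV : W ≤ H.direction) (hW : Inv (T hol) K W)
    (hnt : ∀ W₁ W₂ : Submodule ℝ E, W ≤ W₁ → W₁ < W₂ → W₂ ≤ H.direction → Inv (T hol) K W₁ →
      Inv (T hol) K W₂ → ∃ a ∈ K, ∃ v ∈ W₂, T hol a v - v ∉ W₁) :
    ∃ N : Subgroup Γ, ∀ g, g ∈ N ↔ g ∈ K ∧ BW hol K H W g := by
  obtain ⟨C, P, h, hCV, hPV, hPC, hPW, hl, hcomm, hiff⟩ := prep hres hp hK haff hWV hW hnt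
  refine ⟨(NN hnil hub htr h hcomm).map K.subtype, fun g => ⟨fun hg => ?_, fun hg => ?_⟩⟩
  · obtain ⟨b, hb, rfl⟩ := Subgroup.mem_map.1 hg
    exact ⟨b.2, (hiff b.1 b.2).2 hb⟩
  · exact Subgroup.mem_map.2 ⟨⟨g, hg.1⟩, (hiff g hg.1).1 hg.2, rfl⟩

/-- **main step** -/
theorem main (hnil : S_NIL) (hub : S_UB) (htr : S_TR) (hres : S_RES) {p : E} (hp : p ∈ H)
    (hK : ∀ γ ∈ K, ∀ q ∈ H, hol γ q ∈ H)
    (haff : ∀ S : Set E, S.Nonempty → S ⊆ H → (∀ x ∈ S, ∀ y ∈ S, ∀ s t : ℝ, s + t = 1 → s • x + t • y ∈ S) →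
      (∀ γ ∈ K, ∀ q ∈ S, hol γ q ∈ S) → S = H)
    {W : Submodule ℝ E} (hWV : W ≤ H.direction) (hW : Inv (T hol) K W)
    (hnt : ∀ W₁ W₂ : Submodule ℝ E, W ≤ W₁ → W₁ < W₂ → W₂ ≤ H.direction → Inv (T hol) K W₁ →
      Inv (T hol) K W₂ → ∃ a ∈ K, ∃ v ∈ W₂, T hol a v - v ∉ W₁) {g : Γ} (hg : g ∈ K) (hb : BW hol K H W g)
    {W₁ U : Submodule ℝ E} (h1 : W ≤ W₁) (h2 : W₁ < U) (h3 : U ≤ H.direction) (hW₁ : Inv (T hol) K W₁)
    (hU : Inv (T hol) K U)
    (hirr : ∀ Y : Submodule ℝ E, W₁ ≤ Y → Y ≤ U → Inv (T hol) K Y → Y = W₁ ∨ Y = U) :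
    ∀ v ∈ U, T hol g v - v ∈ W₁ := by
  obtain ⟨C, P, h, hCV, hPV, hPC, hPW, hl, hcomm, hiff⟩ := prep hres hp hK haff hWV hW hnt
  have hgN : Bc h ⟨g, hg⟩ := (hiff g hg).1 hb
  by_contra hcon
  push Not at hcon
  obtain ⟨v, hv, hv'⟩ := hcon
  let N : Subgroup Γ := (NN hnil hub htr h hcomm).map K.subtype
  have hNK : N ≤ K := Subgroup.map_subtype_le _
  have hFam : Fam (T hol) K H.direction {N} := by
    refine ⟨⟨N, rfl⟩, ?_, ?_, ?_⟩
    · rintro L rfl L' rfl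
      exact ⟨N, rfl, le_rfl, le_rfl⟩
    · rintro L rfl
      exact hNK
    · rintro γ hγ L rfl
      refine ⟨N, rfl, fun a ha => ⟨γ⁻¹ * a * γ, ?_, fun _ _ => rfl⟩⟩
      obtain ⟨b, hb, rfl⟩ := Subgroup.mem_map.1 ha
      have e1 : Bc h _ := Bc.conj hb (⟨γ⁻¹, K.inv_mem hγ⟩ : K)
      exact Subgroup.mem_map.2 ⟨_, e1, by simp⟩
  obtain ⟨t, ht, htU⟩ := irr hFam h2 h3 hW₁ hU hirr (by
    rintro L rfl
    exact ⟨g, Subgroup.mem_map.2 ⟨_, hgN, rfl⟩, v, hv, hv'⟩) N rfl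
  -- the compression of `t`
  let ct : Module.End ℝ C := (P.comp t).comp C.subtype
  have hct : ∀ c : C, ct c = P (t c) := fun c => rfl
  have hmem : ∀ s ∈ I (T hol) N, ((P.comp s).comp C.subtype : Module.End ℝ C) ∈ J h := by
    intro s hs
    induction hs using span_induction with
    | mem x hx =>
      obtain ⟨a, ha, rfl⟩ := hx
      obtain ⟨b, hb, rfl⟩ := Subgroup.mem_map.1 ha
      refine subset_span ⟨b, hb, ?_⟩
      apply LinearMap.ext
      intro c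
      show P (T hol b.1 c - c) = T h b c - c
      rw [map_sub, hPC]
      congr 1
      exact (hl b c).symm
    | zero => rw [LinearMap.comp_zero, LinearMap.zero_comp]; exact zero_mem _
    | add x y _ _ hx hy =>
      rw [LinearMap.comp_add, LinearMap.add_comp]
      exact add_mem hx hy
    | smul c x _ hx =>
      rw [LinearMap.comp_smul, LinearMap.smul_comp]
      exact smul_mem _ c hx
  obtain ⟨m, hm⟩ := J_nil hnil hub htr hcomm (hmem t ht)
  have htW : ∀ w ∈ W₁, t w ∈ W₁ := pres (fun a ha => hW₁ a (hNK ha)) ht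
  have hPW₁ : ∀ w ∈ W₁, (P w : E) ∈ W₁ := by
    intro w hw
    have e1 : (P w : E) = w - (w - P w) := by abel
    rw [e1]
    exact W₁.sub_mem hw (h1 (hPV w ((h2.le.trans h3) hw)))
  have hctW : ∀ c : C, (c : E) ∈ W₁ → (ct c : E) ∈ W₁ := fun c hc => hPW₁ _ (htW _ hc)
  have hctU : ∀ c : C, (c : E) ∈ U → ((ct c - c : C) : E) ∈ W₁ := by
    intro c hc
    have e1 : ct c - c = P (t c - c) := by rw [map_sub, hPC]; rfl
    rw [e1]
    exact hPW₁ _ (htU _ hc)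
  have hpow : ∀ k : ℕ, ∀ c : C, (c : E) ∈ U → (((ct ^ k) c - c : C) : E) ∈ W₁ := by
    intro k
    induction k with
    | zero =>
      intro c _
      rw [pow_zero, Module.End.one_apply, sub_self]
      exact W₁.zero_mem
    | succ k ih =>
      intro c hc
      have e1 : (ct ^ (k + 1)) c - c = ct ((ct ^ k) c - c) + (ct c - c) := by
        rw [pow_succ', Module.End.mul_apply, map_sub]; abel
      rw [e1, AddMemClass.coe_add]
      exact W₁.add_mem (hctW _ (ih c hc)) (hctU c hc)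
  have hCU : ∀ c : C, (c : E) ∈ U → (c : E) ∈ W₁ := by
    intro c hc
    have e1 := hpow m c hc
    have e2 : (ct ^ m) c = 0 := by
      show ((((P.comp t).comp C.subtype : Module.End ℝ C)) ^ m) c = 0
      rw [hm, LinearMap.zero_apply]
    rw [e2, zero_sub, NegMemClass.coe_neg] at e1
    exact W₁.neg_mem_iff.1 e1
  refine h2.not_ge fun u hu => ?_
  have e1 : u = (u - P u) + P u := by abel
  have e2 : u - P u ∈ W := hPV u (h3 hu)
  have e3 : (P u : E) ∈ U := by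
    have e4 : (P u : E) = u - (u - P u) := by abel
    rw [e4]
    exact U.sub_mem hu (h2.le (h1 e2))
  rw [e1]
  exact W₁.add_mem (h1 e2) (hCU _ e3)

/-- **irreducible quotients** -/
theorem quot (hnil : S_NIL) (hub : S_UB) (htr : S_TR) (hres : S_RES) {p : E} (hp : p ∈ H)
    (hK : ∀ γ ∈ K, ∀ q ∈ H, hol γ q ∈ H)
    (haff : ∀ S : Set E, S.Nonempty → S ⊆ H → (∀ x ∈ S, ∀ y ∈ S, ∀ s t : ℝ, s + t = 1 → s • x + t • y ∈ S) →
      (∀ γ ∈ K, ∀ q ∈ S, hol γ q ∈ S) → S = H)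
    {W : Submodule ℝ E} (hWV : W < H.direction) (hW : Inv (T hol) K W)
    (hnt : ∀ W₁ W₂ : Submodule ℝ E, W ≤ W₁ → W₁ < W₂ → W₂ ≤ H.direction → Inv (T hol) K W₁ →
      Inv (T hol) K W₂ → ∃ a ∈ K, ∃ v ∈ W₂, T hol a v - v ∉ W₁) {g : Γ} (hg : g ∈ K) (hb : BW hol K H W g)
    (hirr : ∀ Y : Submodule ℝ E, W ≤ Y → Y ≤ H.direction → Inv (T hol) K Y → Y = W ∨ Y = H.direction) :
    (∀ q ∈ H, hol g q - q ∈ W) ∨ ∀ v ∈ H.direction, ∃ R : ℝ, ∀ γ ∈ K, ∃ w ∈ W, ‖T hol γ v + w‖ ≤ R := by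
  have hV : Inv (T hol) K H.direction := by
    intro γ hγ v hv
    have e2 : v = (p + v) - p := by abel
    rw [e2, T_sub]
    exact dir_sub (hK γ hγ _ (add_dir hp hv)) (hK γ hγ p hp)
  have hlin := main hnil hub htr hres hp hK haff hWV.le hW hnt hg hb le_rfl hWV le_rfl hW hV hirr
  by_cases hu : hol g p - p ∈ W
  · left
    intro q hq
    have e1 : hol g q - q = (hol g p - p) + (T hol g (q - p) - (q - p)) := by rw [T_sub]; abel
    rw [e1]
    exact W.add_mem hu (hlin _ (dir_sub hq hp))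
  · right
    let Y : Submodule ℝ E :=
      { carrier := {v | v ∈ H.direction ∧ ∃ R : ℝ, ∀ γ ∈ K, ∃ w ∈ W, ‖T hol γ v + w‖ ≤ R}
        add_mem' := by
          rintro x y ⟨hx, R, hR⟩ ⟨hy, R', hR'⟩
          refine ⟨add_mem hx hy, R + R', fun γ hγ => ?_⟩
          obtain ⟨w, hw, h1⟩ := hR γ hγ
          obtain ⟨w', hw', h2⟩ := hR' γ hγ
          refine ⟨w + w', W.add_mem hw hw', ?_⟩
          have e1 : T hol γ (x + y) + (w + w') = (T hol γ x + w) + (T hol γ y + w') := by rw [map_add]; abel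
          rw [e1]
          exact (norm_add_le _ _).trans (add_le_add h1 h2)
        zero_mem' := ⟨zero_mem _, 0, fun γ _ => ⟨0, W.zero_mem, by rw [map_zero, add_zero, norm_zero]⟩⟩
        smul_mem' := by
          rintro c x ⟨hx, R, hR⟩
          refine ⟨smul_mem _ c hx, ‖c‖ * R, fun γ hγ => ?_⟩
          obtain ⟨w, hw, h1⟩ := hR γ hγ
          refine ⟨c • w, W.smul_mem c hw, ?_⟩
          rw [map_smul, ← smul_add, norm_smul]
          gcongr }
    have hY : ∀ v, v ∈ Y ↔ v ∈ H.direction ∧ ∃ R : ℝ, ∀ γ ∈ K, ∃ w ∈ W, ‖T hol γ v + w‖ ≤ R := fun v => Iff.rfl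
    have hu' : hol g p - p ∈ Y := by
      rw [hY]
      refine ⟨dir_sub (hK g hg p hp) hp, ?_⟩
      obtain ⟨R, hR⟩ := hb p hp
      refine ⟨R + ‖p‖, fun γ hγ => ?_⟩
      obtain ⟨w, hw, h1⟩ := hR γ hγ
      have hγi := K.inv_mem hγ
      -- the linear part of the conjugate
      have hx : hol γ p - p ∈ H.direction := dir_sub (hK γ hγ p hp) hp
      have e1 : T hol (γ * g * γ⁻¹) (hol γ p - p) - (hol γ p - p) ∈ W := by
        have e2 := hW γ hγ _ (hlin _ (hV _ hγi _ hx))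
        have e3 : ∀ x, T hol (γ * g * γ⁻¹) x - x = T hol γ (T hol g (T hol γ⁻¹ x) - T hol γ⁻¹ x) := fun x => by
          rw [(T hol γ).map_sub, Pool.Agent.NH69.CH.T_inv (T := T hol) γ x, (T hol).map_mul, (T hol).map_mul]
          rfl
        rw [e3]
        exact e2
      have e2 : T hol γ (hol g p - p) = (hol (γ * g * γ⁻¹) p - p) +
          (T hol (γ * g * γ⁻¹) (hol γ p - p) - (hol γ p - p)) := by
        have e3 : hol (γ * g * γ⁻¹) (hol γ p) = hol γ (hol g p) := by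
          rw [map_mul, map_mul]
          show hol γ (hol g (hol γ⁻¹ (hol γ p))) = _
          rw [hol_inv_apply]
        rw [T_sub, T_sub, e3]
        abel
      refine ⟨w - (T hol (γ * g * γ⁻¹) (hol γ p - p) - (hol γ p - p)), W.sub_mem hw e1, ?_⟩
      have e4 : T hol γ (hol g p - p) + (w - (T hol (γ * g * γ⁻¹) (hol γ p - p) - (hol γ p - p))) =
          (hol (γ * g * γ⁻¹) p + w) - p := by rw [e2]; abel
      rw [e4]
      exact (norm_sub_le _ _).trans (add_le_add h1 le_rfl)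
    have hYi : Inv (T hol) K Y := by
      intro δ hδ v hv
      rw [hY] at hv ⊢
      obtain ⟨h1, R, hR⟩ := hv
      refine ⟨hV δ hδ v h1, R, fun γ hγ => ?_⟩
      obtain ⟨w, hw, h2⟩ := hR (γ * δ) (K.mul_mem hγ hδ)
      rw [map_mul] at h2
      exact ⟨w, hw, h2⟩
    have hWY : W ≤ Y := by
      intro v hv
      rw [hY]
      refine ⟨hWV.le hv, 0, fun γ hγ => ⟨-(T hol γ v), W.neg_mem (hW γ hγ v hv), ?_⟩⟩
      rw [add_neg_cancel, norm_zero]
    rcases hirr Y hWY (fun v hv => ((hY v).1 hv).1) hYi with h | h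
    · rw [h] at hu'
      exact absurd hu' hu
    · intro v hv
      rw [← h] at hv
      exact ((hY v).1 hv).2

end Pool.Agent.NH69.BC
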