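import Pool.Agent.NH69.BC.Stm

/-!
# BC-NIL (helper26): zero traces imply nilpotent
-/

set_option autoImplicit false

open Polynomial

namespace Pool.Agent.NH69.BC

theorem t_NIL : S_NIL := by
  intro E _ _ _ f h
  have htr : ∀ p : ℝ[X], LinearMap.trace ℝ E (aeval f (X * p)) = 0 := by
    intro p
    induction p using Polynomial.induction_on' with
    | add p q hp hq => rw [mul_add, map_add, map_add, hp, hq, add_zero]
    | monomial n a =>
      rw [X_mul_monomial, aeval_monomial, ← Algebra.smul_def, map_smul, h (n + 1) (by omega), smul_zero]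
  have hint : IsIntegral ℝ f := Algebra.IsIntegral.isIntegral f
  have hq0 : minpoly ℝ f ≠ 0 := minpoly.ne_zero hint
  obtain ⟨r, hr, hnd⟩ := exists_eq_pow_rootMultiplicity_mul_and_not_dvd (minpoly ℝ f) hq0 0
  obtain ⟨k, hk⟩ : ∃ k, k = rootMultiplicity 0 (minpoly ℝ f) := ⟨_, rfl⟩
  rw [← hk, C_0, sub_zero] at hr
  rw [C_0, sub_zero] at hnd
  have hcop : IsCoprime ((X : ℝ[X]) ^ (k + 1)) r :=
    ((irreducible_X.coprime_iff_not_dvd).2 hnd).pow_left
  obtain ⟨u, v, huv⟩ := hcop
  have h0 : aeval f ((X : ℝ[X]) ^ k * r) = 0 := by rw [← hr, minpoly.aeval]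
  have he : aeval f (u * X ^ (k + 1)) * aeval f (v * r) = 0 := by
    rw [← map_mul]
    have : u * X ^ (k + 1) * (v * r) = (u * X * v) * (X ^ k * r) := by ring
    rw [this, map_mul, h0, mul_zero]
  have h1 : aeval f (u * X ^ (k + 1)) + aeval f (v * r) = 1 := by
    rw [← map_add, huv, map_one]
  have hid : IsIdempotentElem (aeval f (u * X ^ (k + 1))) := by
    show aeval f (u * X ^ (k + 1)) * aeval f (u * X ^ (k + 1)) = aeval f (u * X ^ (k + 1))
    calc aeval f (u * X ^ (k + 1)) * aeval f (u * X ^ (k + 1))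
        = aeval f (u * X ^ (k + 1)) * (aeval f (u * X ^ (k + 1)) + aeval f (v * r)) := by
          rw [mul_add, he, add_zero]
      _ = aeval f (u * X ^ (k + 1)) := by rw [h1, mul_one]
  have ht0 : LinearMap.trace ℝ E (aeval f (u * X ^ (k + 1))) = 0 := by
    have : u * X ^ (k + 1) = X * (u * X ^ k) := by ring
    rw [this]
    exact htr _
  have hproj := (LinearMap.isProj_range_iff_isIdempotentElem _).2 hid
  have h2 := hproj.trace
  rw [ht0] at h2
  have h3 : Module.finrank ℝ (LinearMap.range (aeval f (u * X ^ (k + 1)))) = 0 := by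
    exact_mod_cast h2.symm
  have h4 : aeval f (u * X ^ (k + 1)) = 0 := by
    rw [← LinearMap.range_eq_bot]
    exact Submodule.finrank_eq_zero.1 h3
  rw [h4, zero_add] at h1
  refine ⟨k + 1, ?_⟩
  calc f ^ (k + 1) = aeval f ((X : ℝ[X]) ^ (k + 1)) * aeval f (v * r) := by
        rw [h1, mul_one, map_pow, aeval_X]
    _ = aeval f ((X * v) * ((X : ℝ[X]) ^ k * r)) := by
        rw [← map_mul]
        congr 1
        ring
    _ = 0 := by rw [map_mul, h0, mul_zero]

end Pool.Agent.NH69.BC
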