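import Pool.Agent.NH69.BC.Stm

/-!
# BC-REP: the action on the affine vector fields
-/

set_option autoImplicit false
set_option linter.all false

namespace Pool.Agent.NH69.BC

theorem t_REP : S_REP := by
  intro Γ C _ _ _ _ h
  have hmul : ∀ (γ δ : Γ) (v : C), h (γ * δ) v = h γ (h δ v) := by
    intro γ δ v
    rw [map_mul]
    rfl
  have hone : ∀ v : C, h 1 v = v := by
    intro v
    rw [map_one]
    rfl
  have lmul : ∀ (γ δ : Γ) (v : C), (h (γ * δ)).linear v = (h γ).linear ((h δ).linear v) := by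
    intro γ δ v
    rw [map_mul]
    rfl
  have lone : ∀ v : C, (h 1).linear v = v := by
    intro v
    rw [map_one]
    rfl
  have hlin : ∀ (γ : Γ) (v : C), h γ v = (h γ).linear v + h γ 0 := by
    intro γ v
    have := (h γ).map_vadd (0 : C) v
    rw [vadd_eq_add, vadd_eq_add, add_zero] at this
    exact this
  let l : Γ → (C →L[ℝ] C) := fun γ => LinearMap.toContinuousLinearMap ((h γ).linear : C →ₗ[ℝ] C)
  have lap : ∀ (γ : Γ) (v : C), l γ v = (h γ).linear v := fun _ _ => rfl
  let r : Γ → (((C →L[ℝ] C) × C) →ₗ[ℝ] ((C →L[ℝ] C) × C)) := fun γ =>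
    { toFun := fun x => ((l γ).comp (x.1.comp (l γ⁻¹)), (h γ).linear (x.1 (h γ⁻¹ 0) + x.2))
      map_add' := by
        intro x y
        refine Prod.ext ?_ ?_
        · ext v
          simp
        · simp only [Prod.fst_add, Prod.snd_add, ContinuousLinearMap.add_apply]
          rw [← map_add]
          congr 1
          abel
      map_smul' := by
        intro c x
        refine Prod.ext ?_ ?_
        · ext v
          simp
        · simp only [Prod.smul_fst, Prod.smul_snd, ContinuousLinearMap.smul_apply, RingHom.id_apply]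
          rw [← smul_add, map_smul] }
  have r1 : ∀ (γ : Γ) (x : (C →L[ℝ] C) × C) (v : C),
      (r γ x).1 v = (h γ).linear (x.1 ((h γ⁻¹).linear v)) := fun _ _ _ => rfl
  have r2 : ∀ (γ : Γ) (x : (C →L[ℝ] C) × C),
      (r γ x).2 = (h γ).linear (x.1 (h γ⁻¹ 0) + x.2) := fun _ _ => rfl
  have rmul : ∀ (γ δ : Γ) (x : (C →L[ℝ] C) × C), r (γ * δ) x = r γ (r δ x) := by
    intro γ δ x
    refine Prod.ext ?_ ?_
    · ext v
      rw [r1, r1, r1, mul_inv_rev, lmul, lmul]
    · rw [r2, r2, r2, r1, mul_inv_rev, lmul, hmul, ← map_add, hlin δ⁻¹ (h γ⁻¹ 0), map_add (x.1),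
        add_assoc]
  have rone : ∀ x : (C →L[ℝ] C) × C, r 1 x = x := by
    intro x
    refine Prod.ext ?_ ?_
    · ext v
      rw [r1, inv_one, lone, lone]
    · rw [r2, inv_one, lone, hone, map_zero, zero_add]
  let e : Γ → (((C →L[ℝ] C) × C) ≃ₗ[ℝ] ((C →L[ℝ] C) × C)) := fun γ =>
    LinearEquiv.ofLinear (r γ) (r γ⁻¹)
      (LinearMap.ext fun x => by
        rw [LinearMap.comp_apply, ← rmul, mul_inv_cancel, rone, LinearMap.id_apply])
      (LinearMap.ext fun x => by
        rw [LinearMap.comp_apply, ← rmul, inv_mul_cancel, rone, LinearMap.id_apply])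
  have eap : ∀ (γ : Γ) (x : (C →L[ℝ] C) × C), (e γ).toAffineEquiv x = r γ x := fun _ _ => rfl
  refine ⟨{ toFun := fun γ => (e γ).toAffineEquiv
            map_one' := AffineEquiv.ext fun x => by
              rw [eap, rone]
              rfl
            map_mul' := fun γ δ => AffineEquiv.ext fun x => by
              rw [eap, rmul]
              rfl }, ?_⟩
  intro γ L b
  exact ⟨fun v => r1 γ (L, b) v, r2 γ (L, b)⟩

end Pool.Agent.NH69.BC
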