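import Pool.Agent.NH69.BC.Stm

/-!
# BC-RES: the action on `H / W` as an action on a complement
-/

set_option autoImplicit false

namespace Pool.Agent.NH69.BC

namespace Res

theorem exists_proj {E : Type} [AddCommGroup E] [Module ℝ E] (A B : Submodule ℝ E)
    (h : IsCompl A B) : ∃ π : E →ₗ[ℝ] E, (∀ x, π x ∈ A) ∧ (∀ x, x - π x ∈ B) ∧
      (∀ x ∈ A, π x = x) ∧ (∀ x ∈ B, π x = 0) := by
  have h1 : ∀ x : E, ∃ a ∈ A, ∃ b ∈ B, a + b = x := fun x =>
    Submodule.mem_sup.1 (h.sup_eq_top ▸ Submodule.mem_top : x ∈ A ⊔ B)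
  have huniq : ∀ a ∈ A, ∀ b ∈ B, a + b = 0 → a = 0 := by
    intro a ha b hb hab
    have h2 : a ∈ B := by
      rw [eq_neg_of_add_eq_zero_left hab]
      exact B.neg_mem hb
    have h3 : a ∈ A ⊓ B := ⟨ha, h2⟩
    rwa [h.inf_eq_bot, Submodule.mem_bot] at h3
  choose f hf g hg hfg using h1
  have key : ∀ x a b, a ∈ A → b ∈ B → a + b = x → f x = a := by
    intro x a b ha hb hab
    have h2 := huniq (f x - a) (A.sub_mem (hf x) ha) (g x - b) (B.sub_mem (hg x) hb) (by
      have := hfg x
      calc f x - a + (g x - b) = (f x + g x) - (a + b) := by abel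
        _ = 0 := by rw [this, hab, sub_self])
    exact sub_eq_zero.1 h2
  refine ⟨{ toFun := f, map_add' := ?_, map_smul' := ?_ }, hf, ?_, ?_, ?_⟩
  · intro x y
    refine key _ _ (g x + g y) (A.add_mem (hf x) (hf y)) (B.add_mem (hg x) (hg y)) ?_
    calc f x + f y + (g x + g y) = (f x + g x) + (f y + g y) := by abel
      _ = x + y := by rw [hfg, hfg]
  · intro c x
    refine key _ _ (c • g x) (A.smul_mem c (hf x)) (B.smul_mem c (hg x)) ?_
    rw [RingHom.id_apply, ← smul_add, hfg]
  · intro x
    change x - f x ∈ B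
    have : x - f x = g x := by
      conv_lhs => rw [← hfg x]
      rw [hfg x]
      exact sub_eq_of_eq_add' (hfg x).symm
    rw [this]
    exact hg x
  · intro x hx
    exact key x x 0 hx B.zero_mem (add_zero x)
  · intro x hx
    exact key x 0 x A.zero_mem hx (zero_add x)

end Res

theorem t_RES : S_RES := by
  intro Γ E _ _ _ _ hol K H W p hp hH hW hKW
  obtain ⟨D, hD⟩ := exists_isCompl W
  obtain ⟨D', hD'⟩ := exists_isCompl H.direction
  obtain ⟨PV, hPV1, -, hPV3, -⟩ := Res.exists_proj H.direction D' hD'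
  obtain ⟨PD, hPD1, hPD2, hPD3, hPD4⟩ := Res.exists_proj D W hD.symm
  have hmem : ∀ x, (PD ∘ₗ PV) x ∈ D ⊓ H.direction := by
    intro x
    refine ⟨hPD1 _, ?_⟩
    have h1 : PD (PV x) = PV x - (PV x - PD (PV x)) := by abel
    change PD (PV x) ∈ H.direction
    rw [h1]
    exact H.direction.sub_mem (hPV1 x) (hW (hPD2 _))
  set C : Submodule ℝ E := D ⊓ H.direction with hC
  set P : E →ₗ[ℝ] C := (PD ∘ₗ PV).codRestrict C hmem with hPdef
  have hPv : ∀ v ∈ H.direction, v - (P v : E) ∈ W := by
    intro v hv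
    change v - PD (PV v) ∈ W
    rw [hPV3 v hv]
    exact hPD2 v
  have hPc : ∀ c : C, P c = c := by
    intro c
    apply Subtype.ext
    change PD (PV c) = c
    rw [hPV3 _ c.2.2, hPD3 _ c.2.1]
  have hPw : ∀ w ∈ W, P w = 0 := by
    intro w hw
    apply Subtype.ext
    change PD (PV w) = 0
    rw [hPV3 _ (hW hw), hPD4 _ hw]
  -- the linear parts preserve the direction
  have hvs : ∀ (γ : Γ) (x y : E), (hol γ).linear (x - y) = hol γ x - hol γ y := fun γ x y =>
    (hol γ).toAffineMap.linearMap_vsub x y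
  have hpv : ∀ v ∈ H.direction, p + v ∈ H := by
    intro v hv
    have := AffineSubspace.vadd_mem_of_mem_direction hv hp
    rwa [vadd_eq_add, add_comm] at this
  have hdir : ∀ k ∈ K, ∀ v ∈ H.direction, hol k (p + v) - p ∈ H.direction := by
    intro k hk v hv
    exact AffineSubspace.vsub_mem_direction (hH k hk _ (hpv v hv)) hp
  have hlin : ∀ k ∈ K, ∀ v ∈ H.direction, (hol k).linear v ∈ H.direction := by
    intro k hk v hv
    have h1 : (hol k).linear v = hol k (p + v) - hol k p := by
      rw [← hvs, add_sub_cancel_left]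
    rw [h1]
    exact AffineSubspace.vsub_mem_direction (hH k hk _ (hpv v hv)) (hH k hk _ hp)
  -- `P` identifies points modulo `W`
  have hPdiff : ∀ x y : E, x - y ∈ W → P x = P y := by
    intro x y hxy
    have := hPw _ hxy
    rw [map_sub] at this
    exact sub_eq_zero.1 this
  have hA : ∀ k ∈ K, ∀ v ∈ H.direction, P (hol k (p + (P v : E)) - p) = P (hol k (p + v) - p) := by
    intro k hk v hv
    apply hPdiff
    have h1 : hol k (p + (P v : E)) - p - (hol k (p + v) - p) =
        (hol k).linear ((P v : E) - v) := by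
      have h2 := hvs k (p + (P v : E)) (p + v)
      rw [add_sub_add_left_eq_sub] at h2
      rw [h2]
      abel
    rw [h1]
    refine hKW k hk _ ?_
    rw [← neg_sub]
    exact W.neg_mem (hPv v hv)
  have hL : ∀ k ∈ K, ∀ v ∈ H.direction, P ((hol k).linear (P v : E)) = P ((hol k).linear v) := by
    intro k hk v hv
    apply hPdiff
    rw [← map_sub]
    refine hKW k hk _ ?_
    rw [← neg_sub]
    exact W.neg_mem (hPv v hv)
  -- the maps
  let A : K → C → C := fun k c => P (hol k (p + c) - p)
  let L : K → (C →ₗ[ℝ] C) := fun k => P ∘ₗ ((hol k).linear : E →ₗ[ℝ] E) ∘ₗ C.subtype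
  have hAmul : ∀ k k' c, A (k * k') c = A k (A k' c) := by
    intro k k' c
    change P (hol (k * k') (p + c) - p) = P (hol k (p + (P (hol k' (p + c) - p) : E)) - p)
    rw [hA k k.2 _ (hdir k' k'.2 c c.2.2), map_mul, AffineEquiv.mul_def, AffineEquiv.trans_apply,
      add_sub_cancel]
  have hAone : ∀ c, A 1 c = c := by
    intro c
    change P (hol ((1 : K) : Γ) (p + c) - p) = c
    rw [OneMemClass.coe_one, map_one, AffineEquiv.one_def, AffineEquiv.refl_apply,
      add_sub_cancel_left, hPc]
  have hLmul : ∀ k k' c, L (k * k') c = L k (L k' c) := by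
    intro k k' c
    change P ((hol (k * k')).linear c) = P ((hol k).linear (P ((hol k').linear c) : E))
    rw [hL k k.2 _ (hlin k' k'.2 c c.2.2), map_mul]
    rfl
  have hLone : ∀ c, L 1 c = c := by
    intro c
    change P ((hol ((1 : K) : Γ)).linear c) = c
    rw [OneMemClass.coe_one, map_one]
    exact hPc c
  have hAL : ∀ k (c v : C), A k (v + c) = L k v + A k c := by
    intro k c v
    change P (hol k (p + ((v + c : C) : E)) - p) = P ((hol k).linear v) + P (hol k (p + c) - p)
    rw [← map_add]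
    congr 1
    have h2 := hvs k (p + ((v + c : C) : E)) (p + c)
    rw [add_sub_add_left_eq_sub, Submodule.coe_add, add_sub_cancel_right] at h2
    rw [h2, Submodule.coe_add]
    abel
  let e : K → (C ≃ₗ[ℝ] C) := fun k => LinearEquiv.ofLinearMap (L k) (L k⁻¹)
    (by ext c; rw [LinearMap.comp_apply, ← hLmul, mul_inv_cancel, hLone]; rfl)
    (by ext c; rw [LinearMap.comp_apply, ← hLmul, inv_mul_cancel, hLone]; rfl)
  let h : K → (C ≃ᵃ[ℝ] C) := fun k =>
    { toFun := A k
      invFun := A k⁻¹
      left_inv := fun c => by rw [← hAmul, inv_mul_cancel, hAone]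
      right_inv := fun c => by rw [← hAmul, mul_inv_cancel, hAone]
      linear := e k
      map_vadd' := fun c v => hAL k c v }
  refine ⟨C, P, { toFun := h, map_one' := ?_, map_mul' := ?_ }, inf_le_right, hPv, hPc, hPw, ?_, ?_⟩
  · ext c
    change ((A 1 c : C) : E) = c
    rw [hAone]
  · intro k k'
    ext c
    change ((A (k * k') c : C) : E) = (A k (A k' c) : C)
    rw [hAmul]
  · intro k c
    rfl
  · intro k c
    rfl

end Pool.Agent.NH69.BC
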