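import Pool.Agent.NH69.BC.Stm

/-! BC-TR: the trace of an element with bounded conjugacy class. -/

set_option autoImplicit false

namespace Pool.Agent.NH69.BC

theorem tr_to_affine {E : Type} [AddCommGroup E] [Module ℝ E] {S : Set E}
    (hc : ∀ x ∈ S, ∀ y ∈ S, ∀ s t : ℝ, s + t = 1 → s • x + t • y ∈ S) :
    ∃ A : AffineSubspace ℝ E, (A : Set E) = S := by
  refine ⟨{ carrier := S, smul_vsub_vadd_mem' := fun c p q r hp hq hr => ?_ }, rfl⟩
  have h1 := hc p hp q hq c (1 - c) (by ring)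
  have h2 := hc _ h1 r hr (1 / 2) (1 / 2) (by norm_num)
  have h3 := hc _ h2 q hq 2 (-1) (by norm_num)
  have h4 : c • (p -ᵥ q) +ᵥ r =
      (2 : ℝ) • ((1 / 2 : ℝ) • (c • p + (1 - c) • q) + (1 / 2 : ℝ) • r) + (-1 : ℝ) • q := by
    rw [vsub_eq_sub, vadd_eq_add]
    module
  rw [h4]
  exact h3

theorem t_TR (hfix : S_FIX) (hub : S_UB) (hrep : S_REP) : S_TR := by
  intro Γ C _ _ _ _ h hid a ha
  obtain ⟨ρ, hρ⟩ := hrep Γ C h
  have hρ1 : ∀ (γ : Γ) (y : (C →L[ℝ] C) × C) (v : C),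
      (ρ γ y).1 v = (h γ).linear (y.1 ((h γ⁻¹).linear v)) := fun γ y v => (hρ γ y.1 y.2).1 v
  have hρ2 : ∀ (γ : Γ) (y : (C →L[ℝ] C) × C),
      (ρ γ y).2 = (h γ).linear (y.1 (h γ⁻¹ 0) + y.2) := fun γ y => (hρ γ y.1 y.2).2
  have hlin : ∀ (γ : Γ) (v : C), h γ v = (h γ).linear v + h γ 0 := by
    intro γ v
    have h1 := (h γ).map_vadd 0 v
    simpa using h1
  have hmul : ∀ (γ δ : Γ) (v : C), h (γ * δ) v = h γ (h δ v) := by
    intro γ δ v
    rw [map_mul]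
    rfl
  have hmull : ∀ (γ δ : Γ) (v : C), (h (γ * δ)).linear v = (h γ).linear ((h δ).linear v) := by
    intro γ δ v
    rw [map_mul]
    rfl
  have hinv1 : ∀ (γ : Γ) (v : C), h γ (h γ⁻¹ v) = v := by
    intro γ v
    rw [← hmul, mul_inv_cancel, map_one]
    rfl
  have hinv2 : ∀ (γ : Γ) (v : C), h γ⁻¹ (h γ v) = v := by
    intro γ v
    rw [← hmul, inv_mul_cancel, map_one]
    rfl
  have hinvl1 : ∀ (γ : Γ) (v : C), (h γ).linear ((h γ⁻¹).linear v) = v := by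
    intro γ v
    rw [← hmull, mul_inv_cancel, map_one]
    rfl
  have hinvl2 : ∀ (γ : Γ) (v : C), (h γ⁻¹).linear ((h γ).linear v) = v := by
    intro γ v
    rw [← hmull, inv_mul_cancel, map_one]
    rfl
  -- the trace
  have htr : ∀ (γ : Γ) (y : (C →L[ℝ] C) × C),
      LinearMap.trace ℝ C ((ρ γ y).1 : C →ₗ[ℝ] C) = LinearMap.trace ℝ C (y.1 : C →ₗ[ℝ] C) := by
    intro γ y
    have h1 : ((ρ γ y).1 : C →ₗ[ℝ] C) = ((h γ).linear : C →ₗ[ℝ] C) ∘ₗ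
        ((y.1 : C →ₗ[ℝ] C) ∘ₗ ((h γ⁻¹).linear : C →ₗ[ℝ] C)) := by
      ext v
      exact hρ1 γ y v
    have h2 : ((y.1 : C →ₗ[ℝ] C) ∘ₗ ((h γ⁻¹).linear : C →ₗ[ℝ] C)) ∘ₗ ((h γ).linear : C →ₗ[ℝ] C) =
        (y.1 : C →ₗ[ℝ] C) := by
      ext v
      show y.1 ((h γ⁻¹).linear ((h γ).linear v)) = y.1 v
      rw [hinvl2]
    rw [h1, LinearMap.trace_comp_comm', h2]
  -- the vector field of `a`
  set La : C →L[ℝ] C := LinearMap.toContinuousLinearMap ((h a).linear : C →ₗ[ℝ] C) with hLa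
  have hLa' : ∀ v, La v = (h a).linear v := fun v => rfl
  let x : (C →L[ℝ] C) × C := (La - 1, h a 0)
  have hx1 : ∀ (γ : Γ) (v : C), (ρ γ x).1 v = (h (γ * a * γ⁻¹)).linear v - v := by
    intro γ v
    rw [hρ1, hmull, hmull]
    show (h γ).linear (La ((h γ⁻¹).linear v) - (h γ⁻¹).linear v) = _
    rw [map_sub, hinvl1, hLa']
  have hx2 : ∀ γ : Γ, (ρ γ x).2 = h (γ * a * γ⁻¹) 0 := by
    intro γ
    rw [hρ2, hmul, hmul]
    show (h γ).linear (La (h γ⁻¹ 0) - h γ⁻¹ 0 + h a 0) = _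
    have h1 : h γ (h γ⁻¹ 0) = 0 := hinv1 γ 0
    rw [hlin γ (h γ⁻¹ 0)] at h1
    rw [hlin γ (h a (h γ⁻¹ 0)), hlin a (h γ⁻¹ 0), hLa']
    have h2 : h γ 0 = -(h γ).linear (h γ⁻¹ 0) := by
      rw [eq_neg_iff_add_eq_zero, add_comm]
      exact h1
    rw [h2, map_add, map_sub, map_add]
    abel
  have hxb : ∃ R : ℝ, ∀ γ : Γ, ‖ρ γ x‖ ≤ R := by
    obtain ⟨A, hA0, hA⟩ := hub Γ C (fun γ => ((h (γ * a * γ⁻¹) : C ≃ᵃ[ℝ] C) : C →ᵃ[ℝ] C)) ha
    refine ⟨3 * A + 1, fun γ => ?_⟩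
    have hA' : ∀ c : C, ‖h (γ * a * γ⁻¹) c‖ ≤ A * (1 + ‖c‖) := fun c => hA γ c
    have h0 : ‖h (γ * a * γ⁻¹) 0‖ ≤ A := by
      have h1 := hA' 0
      rw [norm_zero, add_zero, mul_one] at h1
      exact h1
    rw [Prod.norm_def]
    refine max_le ?_ ?_
    · refine ContinuousLinearMap.opNorm_le_of_unit_norm (by linarith) fun v hv => ?_
      rw [hx1]
      have h1 : (h (γ * a * γ⁻¹)).linear v = h (γ * a * γ⁻¹) v - h (γ * a * γ⁻¹) 0 := by
        rw [hlin _ v]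
        abel
      have h2 := hA' v
      rw [hv] at h2
      calc ‖(h (γ * a * γ⁻¹)).linear v - v‖ ≤ ‖(h (γ * a * γ⁻¹)).linear v‖ + ‖v‖ := norm_sub_le _ _
        _ ≤ (‖h (γ * a * γ⁻¹) v‖ + ‖h (γ * a * γ⁻¹) 0‖) + ‖v‖ := by
            rw [h1]
            exact add_le_add_left (norm_sub_le _ _) _
        _ ≤ 3 * A + 1 := by
            rw [hv]
            linarith
    · rw [hx2]
      linarith
  -- the invariant affine subspace
  let S : Set ((C →L[ℝ] C) × C) := {y | (∃ R : ℝ, ∀ γ : Γ, ‖ρ γ y‖ ≤ R) ∧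
    LinearMap.trace ℝ C (y.1 : C →ₗ[ℝ] C) = LinearMap.trace ℝ C (x.1 : C →ₗ[ℝ] C)}
  have hS : ∀ y ∈ S, ∀ z ∈ S, ∀ s t : ℝ, s + t = 1 → s • y + t • z ∈ S := by
    rintro y ⟨⟨R₁, h1⟩, h2⟩ z ⟨⟨R₂, h3⟩, h4⟩ s t hst
    refine ⟨⟨|s| * R₁ + |t| * R₂, fun γ => ?_⟩, ?_⟩
    · have h6 : (ρ γ).toAffineMap (s • y + t • z) = s • (ρ γ).toAffineMap y + t • (ρ γ).toAffineMap z :=
        Convex.combo_affine_apply hst
      have h5 : ρ γ (s • y + t • z) = s • ρ γ y + t • ρ γ z := h6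
      rw [h5]
      refine (norm_add_le _ _).trans ?_
      rw [norm_smul, norm_smul, Real.norm_eq_abs, Real.norm_eq_abs]
      exact add_le_add (mul_le_mul_of_nonneg_left (h1 γ) (abs_nonneg _))
        (mul_le_mul_of_nonneg_left (h3 γ) (abs_nonneg _))
    · have h5 : ((s • y + t • z).1 : C →ₗ[ℝ] C) = s • (y.1 : C →ₗ[ℝ] C) + t • (z.1 : C →ₗ[ℝ] C) := by
        ext v
        rfl
      rw [h5, map_add, map_smul, map_smul, h2, h4, ← add_smul, hst, one_smul]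
  obtain ⟨A, hA⟩ := tr_to_affine hS
  have hxS : x ∈ S := ⟨hxb, rfl⟩
  obtain ⟨q, hqA, hq⟩ := hfix Γ ((C →L[ℝ] C) × C) ρ A x (by
      rw [← SetLike.mem_coe, hA]
      exact hxS) (by
      intro γ y hy
      rw [← SetLike.mem_coe, hA] at hy ⊢
      obtain ⟨⟨R, h1⟩, h2⟩ := hy
      refine ⟨⟨R, fun δ => ?_⟩, ?_⟩
      · have h3 : ρ δ (ρ γ y) = ρ (δ * γ) y := by
          rw [map_mul]
          rfl
        rw [h3]
        exact h1 _
      · rw [htr, h2]) (by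
      intro y hy
      rw [← SetLike.mem_coe, hA] at hy
      exact hy.1)
  rw [← SetLike.mem_coe, hA] at hqA
  have hqt := hqA.2
  -- the fixed vector field gives a commuting affine map
  have hkey : ∀ (γ : Γ) (c : C), (h γ).linear (q.1 c + q.2) = q.1 (h γ c) + q.2 := by
    intro γ c
    have h1 : (h γ).linear (q.1 ((h γ⁻¹).linear (h γ c))) = q.1 (h γ c) := by
      rw [← hρ1, hq]
    have h2 : (h γ).linear (q.1 (h γ⁻¹ 0) + q.2) = q.2 := by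
      rw [← hρ2, hq]
    have h3 : c = (h γ⁻¹).linear (h γ c) + h γ⁻¹ 0 := by
      rw [← hlin, hinv2]
    calc (h γ).linear (q.1 c + q.2)
        = (h γ).linear (q.1 ((h γ⁻¹).linear (h γ c) + h γ⁻¹ 0) + q.2) := by rw [← h3]
      _ = (h γ).linear (q.1 ((h γ⁻¹).linear (h γ c))) + (h γ).linear (q.1 (h γ⁻¹ 0) + q.2) := by
          rw [q.1.map_add, add_assoc, map_add]
      _ = q.1 (h γ c) + q.2 := by rw [h1, h2]
  let f : C →ᵃ[ℝ] C :=
    { toFun := fun v => v + (q.1 v + q.2)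
      linear := LinearMap.id + (q.1 : C →ₗ[ℝ] C)
      map_vadd' := by
        intro p v
        show (v + p) + (q.1 (v + p) + q.2) = (v + q.1 v) + (p + (q.1 p + q.2))
        rw [map_add]
        abel }
  have hf : ∀ c, f c = c := by
    refine hid f fun γ c => ?_
    show h γ c + (q.1 (h γ c) + q.2) = h γ (c + (q.1 c + q.2))
    rw [hlin γ (c + (q.1 c + q.2)), map_add, hkey, hlin γ c]
    abel
  have hf' : ∀ c, q.1 c + q.2 = 0 := by
    intro c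
    have h1 : c + (q.1 c + q.2) = c := hf c
    exact add_eq_left.1 h1
  have hq2 : q.2 = 0 := by
    have h1 := hf' 0
    rwa [map_zero, zero_add] at h1
  have hq1 : q.1 = 0 := by
    ext c
    have h1 := hf' c
    rw [hq2, add_zero] at h1
    exact h1
  rw [hq1] at hqt
  have h1 : ((x.1 : C →L[ℝ] C) : C →ₗ[ℝ] C) = ((h a).linear : C →ₗ[ℝ] C) - 1 := by
    ext v
    rfl
  rw [h1, map_sub, LinearMap.trace_one] at hqt
  have h2 : LinearMap.trace ℝ C ((0 : C →L[ℝ] C) : C →ₗ[ℝ] C) = 0 := by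
    rw [ContinuousLinearMap.toLinearMap_zero, map_zero]
  rw [h2] at hqt
  linarith

end Pool.Agent.NH69.BC
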