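import Pool.Agent.NH69.BC.Stm

/-!
# BC-UB (helper79): pointwise bounded affine maps are uniformly bounded
-/

set_option autoImplicit false

namespace Pool.Agent.NH69.BC

namespace UB

theorem decomp {C : Type} [NormedAddCommGroup C] [NormedSpace ℝ C] (f : C →ᵃ[ℝ] C) (c : C) :
    f c = f.linear c + f 0 := by
  have h := f.map_vadd 0 c
  simpa using h

end UB

/-- BC-UB -/
theorem t_UB : S_UB := by
  intro ι C _ _ _ h hb
  have : CompleteSpace C := FiniteDimensional.complete ℝ C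
  obtain ⟨R₀, hR₀⟩ := hb 0
  obtain ⟨B, hB⟩ := banach_steinhaus
    (g := fun i => LinearMap.toContinuousLinearMap ((h i).linear : C →ₗ[ℝ] C)) (by
      intro c
      obtain ⟨R, hR⟩ := hb c
      refine ⟨R + R₀, fun i => ?_⟩
      have h1 : (h i).linear c = h i c - h i 0 := by
        rw [UB.decomp (h i) c]
        abel
      rw [LinearMap.coe_toContinuousLinearMap', h1]
      exact (norm_sub_le _ _).trans (add_le_add (hR i) (hR₀ i)))
  refine ⟨max |R₀| |B|, le_max_of_le_left (abs_nonneg _), fun i c => ?_⟩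
  have h2 : ‖(h i).linear c‖ ≤ |B| * ‖c‖ := by
    have h3 := (LinearMap.toContinuousLinearMap ((h i).linear : C →ₗ[ℝ] C)).le_opNorm c
    rw [LinearMap.coe_toContinuousLinearMap'] at h3
    exact h3.trans (mul_le_mul_of_nonneg_right ((hB i).trans (le_abs_self B)) (norm_nonneg c))
  rw [UB.decomp (h i) c]
  have h4 : ‖h i 0‖ ≤ |R₀| := (hR₀ i).trans (le_abs_self R₀)
  have h5 : |B| * ‖c‖ ≤ max |R₀| |B| * ‖c‖ :=
    mul_le_mul_of_nonneg_right (le_max_right _ _) (norm_nonneg c)
  have h6 : |R₀| ≤ max |R₀| |B| := le_max_left _ _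
  calc ‖(h i).linear c + h i 0‖ ≤ ‖(h i).linear c‖ + ‖h i 0‖ := norm_add_le _ _
    _ ≤ max |R₀| |B| * (1 + ‖c‖) := by linarith

end Pool.Agent.NH69.BC
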